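import Pool.Agent.helper34.AC.Spec3

/-!
# Project ac (MP_e0bd72_co), module EFN: the error function of the absorption argument
-/

set_option autoImplicit false

open Filter Topology

namespace Pool.Agent.helper34.AC

/-- The cut-off function. -/
noncomputable def EFN_phi (M1 : ℕ) (u : ℝ) : ℝ := max 0 (min 1 (1 - Real.log (u / M1) / 200))

theorem EFN_phi_nonneg (M1 : ℕ) (u : ℝ) : 0 ≤ EFN_phi M1 u := le_max_left _ _

theorem EFN_phi_le_one (M1 : ℕ) (u : ℝ) : EFN_phi M1 u ≤ 1 :=
  max_le zero_le_one (min_le_left _ _)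

theorem EFN_phi_lip (M1 : ℕ) (u v : ℝ) (hM : 0 < M1) (hu : 0 < u) (huv : u ≤ v) :
    EFN_phi M1 u ≤ EFN_phi M1 v + Real.log (v / u) / 200 := by
  have hM' : (0 : ℝ) < M1 := by exact_mod_cast hM
  have hv : 0 < v := lt_of_lt_of_le hu huv
  have h1 : Real.log (v / M1) = Real.log (u / M1) + Real.log (v / u) := by
    rw [← Real.log_mul (by positivity) (by positivity)]
    congr 1
    field_simp
  have h2 : 0 ≤ Real.log (v / u) := Real.log_nonneg ((one_le_div hu).2 huv)
  unfold EFN_phi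
  rw [h1]
  simp only [max_def, min_def]
  split_ifs <;> linarith

theorem EFN_phi_zero (M1 : ℕ) (u : ℝ) (h : 200 ≤ Real.log (u / M1)) : EFN_phi M1 u = 0 := by
  unfold EFN_phi
  rw [max_eq_left]
  exact (min_le_right _ _).trans (by linarith)

theorem EFN_phi_one (M1 : ℕ) (u : ℝ) (h : Real.log (u / M1) ≤ 0) : EFN_phi M1 u = 1 := by
  unfold EFN_phi
  rw [min_eq_left (by linarith), max_eq_right zero_le_one]

/-- The error function. -/
noncomputable def EFN_e (M M1 : ℕ) (n : ℕ) : ℝ :=
  if n < M then 1 else if 4 * n < M1 then 3 / 4 / (1 + W n) else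
    3 / 4 / (1 + W ((M1 : ℝ) / 4)) * EFN_phi M1 n

theorem EFN_exp : 4 ≤ Real.exp 2 ∧ 8 ≤ Real.exp 3 := by
  have h := Real.exp_one_gt_d9
  have h2 : Real.exp 2 = Real.exp 1 * Real.exp 1 := by rw [← Real.exp_add]; norm_num
  have h3 : Real.exp 3 = Real.exp 1 * Real.exp 1 * Real.exp 1 := by
    rw [← Real.exp_add, ← Real.exp_add]; norm_num
  constructor
  · rw [h2]; nlinarith
  · rw [h3]
    have : 7 < Real.exp 1 * Real.exp 1 := by nlinarith
    nlinarith

theorem EFN_W (hW : WEX_stmt) (hG : GAP_stmt) (M1 : ℕ) (u v : ℝ) (hM : 0 < M1) (hu : 0 < u)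
    (hv : 0 ≤ v) (huv : v ≤ 2 * u) (h : Real.log (u / M1) < 200) :
    W u ≤ W ((M1 : ℝ) / 4) + 202 ∧ W v ≤ W ((M1 : ℝ) / 4) + 203 := by
  obtain ⟨-, -, hmono, -, -⟩ := hW
  obtain ⟨-, -, hG3⟩ := hG
  obtain ⟨e2, e3⟩ := EFN_exp
  have hM' : (0 : ℝ) < M1 := by exact_mod_cast hM
  have h1 : u < M1 * Real.exp 200 := by
    have h2 : u / M1 < Real.exp 200 := by
      rwa [← Real.log_lt_iff_lt_exp (by positivity)]
    rw [div_lt_iff₀ hM'] at h2
    linarith
  have hE : 0 < Real.exp 200 := Real.exp_pos _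
  constructor
  · refine (hmono u (Real.exp 202 * ((M1 : ℝ) / 4)) hu.le ?_).trans
      (hG3 ((M1 : ℝ) / 4) 202 (by positivity) (by norm_num))
    have h3 : Real.exp 202 = Real.exp 200 * Real.exp 2 := by rw [← Real.exp_add]; norm_num
    rw [h3]
    have h4 : (M1 : ℝ) * Real.exp 200 * 4 ≤ M1 * Real.exp 200 * Real.exp 2 :=
      mul_le_mul_of_nonneg_left e2 (by positivity)
    linarith
  · refine (hmono v (Real.exp 203 * ((M1 : ℝ) / 4)) hv ?_).trans
      (hG3 ((M1 : ℝ) / 4) 203 (by positivity) (by norm_num))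
    have h3 : Real.exp 203 = Real.exp 200 * Real.exp 3 := by rw [← Real.exp_add]; norm_num
    rw [h3]
    have h4 : (M1 : ℝ) * Real.exp 200 * 8 ≤ M1 * Real.exp 200 * Real.exp 3 :=
      mul_le_mul_of_nonneg_left e3 (by positivity)
    linarith

theorem EFN_gb0 : gb 0 = 1 := by
  unfold gb bl
  simp

theorem EFN_gb1 : gb 1 = 2 := by
  unfold gb bl
  norm_num [Nat.bell_two]

theorem EFN (hW : WEX_stmt) (hG : GAP_stmt) (hO : OMF_stmt) (hA : ASY_stmt) (hB : BMO_stmt)
    (hD : D23_stmt) : EFN_stmt := by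
  intro M0
  have hWE := hW
  have hGG := hG
  obtain ⟨hW0, -, hmono, -, -⟩ := hWE
  obtain ⟨hG1, ⟨Mg, hMg⟩, hG3⟩ := hGG
  obtain ⟨hO1, hO2, -, hO4, hO5, -⟩ := hO
  obtain ⟨Mb, hMb⟩ := hB
  obtain ⟨Ma, hMa⟩ := hA (1 / 2) (by norm_num)
  obtain ⟨hD1, -, -, hD4⟩ := hD
  have hWnn : ∀ x : ℝ, 0 ≤ x → 0 ≤ W x := fun x hx => (hW0 x hx).1
  obtain ⟨Mc, hMc⟩ := (eventually_atTop.1 (hO4.eventually_ge_atTop (100 : ℝ)))
  -- the first threshold
  obtain ⟨M, hM⟩ : ∃ M : ℕ, M = M0 + Mg + Mb + Ma + Mc + 1 := ⟨_, rfl⟩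
  obtain ⟨n1, hn1⟩ := (eventually_atTop.1 (hO5.eventually_ge_atTop (M : ℝ)))
  obtain ⟨n2, hn2⟩ := (eventually_atTop.1 (hO5.eventually_ge_atTop (6000 : ℝ)))
  obtain ⟨M1, hM1⟩ : ∃ M1 : ℕ, M1 = 2 * M + 2 * n1 + 4 * n2 + 4 := ⟨_, rfl⟩
  have hM1pos : 0 < M1 := by omega
  have hM1r : (0 : ℝ) < M1 := by exact_mod_cast hM1pos
  set w : ℝ := W ((M1 : ℝ) / 4) with hw
  have hw6 : 6000 ≤ w := by
    have h1 : (n2 : ℝ) ≤ (M1 : ℝ) / 4 := by
      have : (4 * n2 : ℝ) ≤ M1 := by exact_mod_cast (by omega : 4 * n2 ≤ M1)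
      linarith
    have h2 := hmono (n2 : ℝ) ((M1 : ℝ) / 4) (Nat.cast_nonneg _) h1
    have h3 := (hG1 n2).2
    have h4 := hn2 n2 le_rfl
    linarith
  have hA0 : 0 < 3 / 4 / (1 + w) := by positivity
  have hA1 : 3 / 4 / (1 + w) ≤ 1 := by
    rw [div_le_one (by linarith)]
    linarith
  have he0 : ∀ n, 0 ≤ EFN_e M M1 n := by
    intro n
    unfold EFN_e
    have := hWnn n (Nat.cast_nonneg n)
    split_ifs
    · norm_num
    · positivity
    · exact mul_nonneg hA0.le (EFN_phi_nonneg _ _)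
  have he1 : ∀ n, EFN_e M M1 n ≤ 1 := by
    intro n
    unfold EFN_e
    have := hWnn n (Nat.cast_nonneg n)
    split_ifs
    · exact le_refl _
    · rw [div_le_one (by linarith)]
      linarith
    · calc 3 / 4 / (1 + W ((M1 : ℝ) / 4)) * EFN_phi M1 n ≤ 1 * 1 :=
          mul_le_mul hA1 (EFN_phi_le_one _ _) (EFN_phi_nonneg _ _) zero_le_one
        _ = 1 := by norm_num
  have hgb100 : ∀ n, M ≤ n → 100 ≤ gb n := fun n hn => hMc n (by omega)
  refine ⟨EFN_e M M1, M1, ⌈(M1 : ℝ) * Real.exp 200⌉₊, by omega, fun n => ⟨he0 n, he1 n⟩,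
    ?_, ?_, ?_, ?_⟩
  · -- (b)
    intro n hn
    by_cases h1 : n < M
    · have : EFN_e M M1 n = 1 := by unfold EFN_e; rw [if_pos h1]
      rw [this]
      exact (hG1 n).1
    · have hg := hMg n (by omega)
      by_cases h2 : 4 * n < M1
      · have : EFN_e M M1 n = 3 / 4 / (1 + W n) := by unfold EFN_e; rw [if_neg h1, if_pos h2]
        rw [this]
        exact hg
      · have hnpos : (0 : ℝ) < n := by exact_mod_cast (by omega : 0 < n)
        have h3 : Real.log ((n : ℝ) / M1) ≤ 0 := by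
          apply Real.log_nonpos (by positivity)
          rw [div_le_one hM1r]
          exact_mod_cast hn.le
        have : EFN_e M M1 n = 3 / 4 / (1 + w) := by
          unfold EFN_e
          rw [if_neg h1, if_neg h2, EFN_phi_one _ _ h3, mul_one]
        rw [this]
        have h4 : W ((M1 : ℝ) / 4) ≤ W n := by
          refine hmono _ _ (by positivity) ?_
          have : (M1 : ℝ) ≤ 4 * n := by exact_mod_cast (by omega : M1 ≤ 4 * n)
          linarith
        have h5 : 3 / 4 / (1 + W n) ≤ 3 / 4 / (1 + w) :=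
          div_le_div_of_nonneg_left (by norm_num) (by linarith) (by linarith)
        linarith
  · -- (c)
    intro m hm i hi
    obtain ⟨j, hj⟩ : ∃ j, j = max i ((m + 1) / 2) := ⟨_, rfl⟩
    rw [← hj]
    have hji : i ≤ j := by rw [hj]; exact le_max_left _ _
    have hjm : (m + 1) / 2 ≤ j := by rw [hj]; exact le_max_right _ _
    have hgbj : 0 < gb j := by
      have := hgb100 j (by omega)
      linarith
    have hBfj : (M : ℝ) ≤ Bf j := by
      unfold Bf
      have h1 := hn1 j (by omega)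
      have h2 : 0 ≤ 4 / 5 / gb j := by positivity
      linarith
    by_cases h1 : i < M
    · have hei : EFN_e M M1 i = 1 := by unfold EFN_e; rw [if_pos h1]
      rw [hei]
      rcases Nat.eq_zero_or_pos i with h0 | h0
      · rw [h0, EFN_gb0]
        simp
      · have h2 : (2 : ℝ) ≤ gb i := by
          rw [← EFN_gb1]
          exact hD4 1 i h0
        have h3 : (i : ℝ) ≤ M := by exact_mod_cast h1.le
        have h4 : 0 ≤ Bf j := le_trans (Nat.cast_nonneg M) hBfj
        nlinarith
    · have hgi := hgb100 i (by omega)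
      have hBij := hMb i j (by omega) hji
      have hei0 := he0 i
      have hei1 := he1 i
      have hgi0 : 0 < gb i := by linarith
      -- the bound 0.78
      have hom : om i * EFN_e M M1 i ≤ 78 / 100 := by
        have hoW := (hG1 i).2
        have hom0 := (hO1 i).1
        have hWi := hWnn i (Nat.cast_nonneg i)
        by_cases h2 : 4 * i < M1
        · have : EFN_e M M1 i = 3 / 4 / (1 + W i) := by unfold EFN_e; rw [if_neg h1, if_pos h2]
          rw [this, mul_div_assoc', div_le_iff₀ (by linarith)]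
          nlinarith
        · have hEe : EFN_e M M1 i = 3 / 4 / (1 + w) * EFN_phi M1 i := by
            unfold EFN_e
            rw [if_neg h1, if_neg h2]
          by_cases h3 : 200 ≤ Real.log ((i : ℝ) / M1)
          · rw [hEe, EFN_phi_zero _ _ h3]
            norm_num
          · have hipos : (0 : ℝ) < i := by exact_mod_cast (by omega : 0 < i)
            have h4 := (EFN_W hW hG M1 i i hM1pos hipos hipos.le (by linarith) (not_le.1 h3)).1
            have h5 : EFN_e M M1 i ≤ 3 / 4 / (1 + w) := by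
              rw [hEe]
              exact mul_le_of_le_one_right hA0.le (EFN_phi_le_one _ _)
            calc om i * EFN_e M M1 i ≤ (w + 202) * (3 / 4 / (1 + w)) :=
                  mul_le_mul (by linarith) h5 hei0 (by linarith)
              _ ≤ 78 / 100 := by
                  rw [mul_div_assoc', div_le_iff₀ (by linarith)]
                  nlinarith
      have h5 : om i * gb i = i := by
        unfold om
        rw [div_mul_cancel₀ _ hgi0.ne']
      have h6 : EFN_e M M1 i / gb i ≤ 1 / 100 := by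
        rw [div_le_div_iff₀ hgi0 (by norm_num)]
        linarith
      have h7 : (i : ℝ) ≤ Bf i * (gb i - EFN_e M M1 i) := by
        unfold Bf
        have h8 : (om i + 4 / 5 / gb i) * (gb i - EFN_e M M1 i) =
            om i * gb i + 4 / 5 * (gb i / gb i) - om i * EFN_e M M1 i
              - 4 / 5 * (EFN_e M M1 i / gb i) := by ring
        rw [h8, h5, div_self hgi0.ne']
        linarith
      refine h7.trans (mul_le_mul_of_nonneg_right hBij (by linarith))
  · -- (d)
    intro m hm t ht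
    have hmM : M ≤ m := by omega
    have hAm := hMa m (by omega)
    obtain ⟨hx1, -, -, -, -, -, -, hx0⟩ := hAm
    have hgm := hgb100 m hmM
    have hgm0 : 0 < gb m := by linarith
    have hom0 := (hO1 m).1
    have hmpos : (0 : ℝ) < m := by exact_mod_cast (by omega : 0 < m)
    have hommul : om m * gb m = m := by
      unfold om
      rw [div_mul_cancel₀ _ hgm0.ne']
    have homp : 0 < om m := by
      unfold om
      positivity
    have ht0 : (0 : ℝ) ≤ t := Nat.cast_nonneg t
    have hrhs : 0 ≤ ((t : ℝ) + 1) * xx m / (40 * gb m * (1 + om m)) := by positivity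
    have hn : ¬ (m - t < M) := by omega
    have hn' : ¬ (4 * (m - t) < M1) := by omega
    have hn1' : ¬ (m + 1 < M) := by omega
    have hn2' : ¬ (4 * (m + 1) < M1) := by omega
    have e1 : EFN_e M M1 (m - t) = 3 / 4 / (1 + w) * EFN_phi M1 ((m - t : ℕ) : ℝ) := by
      unfold EFN_e
      rw [if_neg hn, if_neg hn']
    have e2 : EFN_e M M1 (m + 1) = 3 / 4 / (1 + w) * EFN_phi M1 ((m + 1 : ℕ) : ℝ) := by
      unfold EFN_e
      rw [if_neg hn1', if_neg hn2']
    have hupos : (0 : ℝ) < ((m - t : ℕ) : ℝ) := by exact_mod_cast (by omega : 0 < m - t)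
    by_cases h3 : 200 ≤ Real.log (((m - t : ℕ) : ℝ) / M1)
    · rw [e1, EFN_phi_zero _ _ h3, mul_zero]
      exact add_nonneg (he0 _) hrhs
    · have h2u : (m : ℝ) ≤ 2 * ((m - t : ℕ) : ℝ) := by exact_mod_cast (by omega : m ≤ 2 * (m - t))
      have h4 := (EFN_W hW hG M1 ((m - t : ℕ) : ℝ) m hM1pos hupos hmpos.le h2u (not_le.1 h3)).2
      have hoW := (hG1 m).2
      have h5 : 3 / 4 / (1 + w) * (1 + om m) ≤ 8 / 10 := by
        rw [div_mul_eq_mul_div, div_le_iff₀ (by linarith)]
        nlinarith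
      have h6 := EFN_phi_lip M1 ((m - t : ℕ) : ℝ) ((m + 1 : ℕ) : ℝ) hM1pos hupos
        (by exact_mod_cast (by omega : m - t ≤ m + 1))
      have h7 : Real.log (((m + 1 : ℕ) : ℝ) / ((m - t : ℕ) : ℝ)) ≤ 2 * ((t : ℝ) + 1) / m := by
        have h8 := Real.log_le_sub_one_of_pos
          (show 0 < ((m + 1 : ℕ) : ℝ) / ((m - t : ℕ) : ℝ) by positivity)
        refine h8.trans ?_
        have h9 : ((m - t : ℕ) : ℝ) = (m : ℝ) - t := by
          rw [Nat.cast_sub (by omega)]
        rw [h9] at hupos h2u ⊢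
        have h10 : ((m + 1 : ℕ) : ℝ) / ((m : ℝ) - t) - 1 = ((t : ℝ) + 1) / ((m : ℝ) - t) := by
          rw [div_sub_one hupos.ne']
          congr 1
          push_cast
          ring
        rw [h10, div_le_div_iff₀ hupos hmpos]
        nlinarith
      have h8 : EFN_e M M1 (m - t) ≤ EFN_e M M1 (m + 1) +
          3 / 4 / (1 + w) * (2 * ((t : ℝ) + 1) / m / 200) := by
        rw [e1, e2, ← mul_add]
        refine mul_le_mul_of_nonneg_left ?_ hA0.le
        linarith
      refine h8.trans ?_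
      have hx : 1 / 2 ≤ xx m * om m := by
        have := abs_le.1 hx1
        linarith [this.1]
      have h9 : 3 / 4 / (1 + w) * (2 * ((t : ℝ) + 1) / m / 200) ≤
          ((t : ℝ) + 1) * xx m / (40 * gb m * (1 + om m)) := by
        rw [← hommul, le_div_iff₀ (by positivity)]
        have h10 : 3 / 4 / (1 + w) * (2 * ((t : ℝ) + 1) / (om m * gb m) / 200) *
            (40 * gb m * (1 + om m)) =
            (3 / 4 / (1 + w) * (1 + om m)) * (((t : ℝ) + 1) * (2 / 5) / om m) := by
          field_simp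
          ring
        rw [h10]
        calc (3 / 4 / (1 + w) * (1 + om m)) * (((t : ℝ) + 1) * (2 / 5) / om m)
            ≤ 8 / 10 * (((t : ℝ) + 1) * (2 / 5) / om m) :=
              mul_le_mul_of_nonneg_right h5 (by positivity)
          _ ≤ ((t : ℝ) + 1) * xx m := by
              rw [mul_div_assoc', div_le_iff₀ homp]
              have h11 : ((t : ℝ) + 1) * (1 / 2) ≤ ((t : ℝ) + 1) * (xx m * om m) :=
                mul_le_mul_of_nonneg_left hx (by linarith)
              nlinarith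
      linarith
  · -- (e)
    intro n hn
    have h1 : (M1 : ℝ) * Real.exp 200 ≤ n := (Nat.le_ceil _).trans (by exact_mod_cast hn)
    have hE : 1 ≤ Real.exp 200 := Real.one_le_exp (by norm_num)
    have h2 : (M1 : ℝ) ≤ n := by nlinarith
    have h2' : M1 ≤ n := by exact_mod_cast h2
    have h3 : 200 ≤ Real.log ((n : ℝ) / M1) := by
      rw [Real.le_log_iff_exp_le (div_pos (lt_of_lt_of_le hM1r h2) hM1r), le_div_iff₀ hM1r]
      linarith
    unfold EFN_e
    rw [if_neg (by omega), if_neg (by omega), EFN_phi_zero _ _ h3, mul_zero]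

end Pool.Agent.helper34.AC
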